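import Pool.Agent.Q137.UO.Ord
import Pool.Agent.Q137.UO.Inf
import Pool.Agent.Q137.UO.IH

/-!
# Ordinary primes for intersection cohomology, and cubic hypersurfaces

Let `F` be a number field and `M` the category of motives over `F` (for motivated cycles), a semisimple
abelian category. For a scheme `X` of finite type over `ℚ` let `D.H i X` be the graded object of the weight
filtration of `H^i_c(X_F)`; for smooth projective `X` it is the motive `h^i(X_F)`. For a projective scheme
`X` over `F` let `IH X n` be the motive with the realizations `IH^n(X)`, a direct factor of the motive of
a resolution of singularities by the decomposition theorem.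

* `O.ord N` is the set of the maximal ideals `𝔭` of `𝓞_F` such that the `p`-adic realization of `N`
  (`𝔭 | p`) is crystalline at `𝔭`, and the Newton polygon of its crystalline Frobenius is the
  Hodge(-Tate) polygon of `N`. The first polygon lies above the second one, so this is inherited by
  direct factors. For `h^n` of a smooth projective scheme it is also the Newton polygon of `Frob_𝔭` on the
  `ℓ`-adic realizations, for almost all `𝔭` (Katz-Messing).
* `O.places X`, for a scheme `X` over `ℚ`, is the set of the `𝔭` which are in `O.ord (D.H i X)` for all
  `i`; we say that `X` is ordinary at `𝔭`.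

The properties `IsPlace` and `IsIH` are true up to finitely many places. For `IsIH.dom` let `X` be the
disjoint union (or the product) of schemes `Y_j × Y_j × ℙ^m`, so that `IH X n` contains the tensor
squares of the motives `h^i(Y_j)` up to Tate twists, and note that a motive is ordinary at `𝔭` if its
tensor square is (by the inequality between the two polygons).

**Theorem.**
1. For all projective schemes `X` over `F` and all `n` there are infinitely many ordinary `𝔭` for
   `IH^n(X)` (question Q1 for `F`, with the crystalline Frobenius) if and only if for all finite families of finite sets `H_s` of triples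
   there are infinitely many `𝔭` at which all the affine cubic hypersurfaces
   `∑_{(i, j, l) ∈ H_s} x_i y_j z_l = 1` are ordinary.
2. For every `d` finitely many motives `IH^n(X)` with `X` projective over `F` of dimension at most `d`
   always have infinitely many common ordinary `𝔭` if and only if this is true for finitely many
   hypersurfaces `T(x, y, z) = 1`, `T` a trilinear form with rational coefficients and a block of at most
   `d + 2` variables.
3. A hypersurface `T(x, y, z) = 1` is ordinary at all but finitely many `𝔭`, if `T` has a block of at
   most two variables.
-/

set_option autoImplicit false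

open CategoryTheory CategoryTheory.Limits AlgebraicGeometry Pool.Agent.Y116.UV Pool.Agent.Z125.UN
  Pool.Agent.Q193.LT Pool.Agent.Q137.UO IsDedekindDomain NumberField

universe v u

namespace Pool.Agent.Results.MP_db07cb_ag.CubicsSuffice

/-- **Ordinary primes for intersection cohomology, and cubic hypersurfaces.** See the explanations
above. -/
theorem result {F : Type} [Field F] [NumberField F] {M : Type u} [Category.{v} M] [Abelian M]
    {D : CompactData ℚ M} (h : IsMotives D) {O : PlaceData ℚ M (HeightOneSpectrum (𝓞 F))}
    (hO : IsPlace D O) {IH : Sch F → ℤ → M} (hI : IsIH D O IH) :
    ((∀ (X : Sch F) (n : ℤ), IsProj X → (O.ord (IH X n)).Infinite) ↔ FamGraphs O Set.Infinite) ∧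
    (∀ d : ℕ, (∀ (J : Type) [Finite J] (X : J → Sch F) (n : J → ℤ),
      (∀ j, IsProj (X j) ∧ topologicalKrullDim (X j).left ≤ d) →
        (⋂ j, O.ord (IH (X j) (n j))).Infinite) ↔ FamForms O Set.Infinite (d + 2)) ∧
    ∀ (a b c : ℕ) (T : Fin a → Fin b → Fin c → ℚ), (a ≤ 2 ∨ b ≤ 2 ∨ c ≤ 2) →
      (Set.univ \ O.places (hypS T)).Finite :=
  ⟨(ih_iff hO hI large_infinite).trans (graphs_iff h hO large_infinite frac_rat),
    fun d => (ih_dim_iff hO hI large_infinite d).trans (fam_iff h hO large_infinite d),
    fun _ _ _ T hT => two_variables h hO T hT⟩

end Pool.Agent.Results.MP_db07cb_ag.CubicsSuffice
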