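import Pool.Agent.Q205.Ord.Common

/-!
# Newton polygons of intersection cohomology at a set of places of density one

`K₀` is a number field, `X` a projective variety over `K₀`, `V = IH^n(X)` and `F v₀` its Frobenius
polynomials. Over a finite extension `K` (over which the monodromy groups are connected) `V` is a direct
sum of `m i` copies of pieces `A i` of weight `w i` and rank `n i` over a totally real or CM field `E i` of
degree `d i` (for instance one piece, `V` itself, with `E = ℚ`). No condition on the Hodge numbers is
imposed. `c k` is the coefficient of `T ^ (n i - k)` of the Frobenius polynomial of `A i` over `E i`.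

Theorem.

1. At a set of places `v` of `K` of density one, for every piece with at least two different
   Hodge-Tate weights and every `0 < k < n i`:
   (a) `2 v_p (N c_k) < w k d`, for the norm of `c k` from `E i` to `ℚ`;
   (b) for every embedding of the algebraic numbers into the algebraic closure of `ℚ_p` the sum, over
       the `d` embeddings `σ` of `E i`, of the `k` smallest slopes of the `σ`-part is at most an
       integer `M` with `2 M < w k d`;
   (c) for every maximal ideal `Q` above `v`: the set of the embeddings `σ` for which `k` is a vertex of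
       the Hodge polygon which does not lie on the Newton polygon of the `σ`-part has fewer elements
       than half the Hodge defect `Σ (w k - 2 hp σ k)`, and it is stable under the Frobenius elements
       at `Q` (and under complex conjugation if `2 k = n i`).
2. For every `γ` in the Galois group of `K` let `smallMax i γ k` be the largest number of elements of a
   `γ`-stable set as in (c), and `maxExcess i γ` their sum over `0 < k ≤ n i / 2` (counted twice if
   `2 k < n i` and `E i` is a CM field). The places of `K₀` at which at least
   `Σ m i * n i * (d i - maxExcess i γ)` slopes are common to the Newton polygon and the Hodge polygon of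
   `V` have positive lower density.

Examples.

* `E = ℚ`: for every `X` and `n` for which `IH^n(X)` has at least two different Hodge-Tate weights, at a
  set of places of `K` of density one, the sum of the `k` smallest slopes is smaller than `n k / 2` for
  all `0 < k < dim V`, and even at most the largest integer smaller than `n k / 2`. So for even `n` the
  smallest slope is at most `n / 2 - 1`, for odd `n` the sum of the two smallest slopes is at most
  `n - 1` (`2` for threefolds and `n = 3`).
* `E` totally real of degree `d`, all `σ`-parts with the Hodge numbers `1, r - 2, 1` and `w` even (such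
  as the motives of Hilbert modular surfaces, `r = 4`): by (c) some smallest Hodge slope is the smallest
  slope of its `σ`-part, at a set of places of density one. If all orbits of `γ` on the embeddings of
  `E` have at least `t` elements, `maxExcess γ ≤ d - t`, and by 2. at least `r t` of the `r d` slopes are
  common to both polygons, at a set of places of positive lower density.
* If `γ` is admissible for all pieces (orbit condition of the starting library), `maxExcess i γ = 0` and
  2. says that the places of ordinary reduction have positive lower density.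
-/

set_option autoImplicit false

namespace Pool.Agent.Results.MP_db07cb_ag.NewtonPolygonsDensityOne

open NumberField IsDedekindDomain Polynomial Filter Topology
open Pool.Agent.W401.Cheb Pool.Agent.W528.Ord Pool.Agent.Q205.Ord
open Pool.Agent.W528.Ord.MultSystem (IsDeg1 IsOver)

theorem result (K₀ K : Type) [Field K₀] [NumberField K₀] [Field K] [NumberField K] [Algebra K₀ K]
    (ℓ : ℕ) [Fact ℓ.Prime] {ι : Type} [Fintype ι] (A : ι → MotSystem K ℓ) (m : ι → ℕ)
    (χ : GK K →* (PadicAlgCl ℓ)ˣ) (S : Finset ℕ) (hA : ∀ i, (A i).IsMotive χ S)
    (F : HeightOneSpectrum (𝓞 K₀) → ℤ[X])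
    (hF : ∀ (v₀ : HeightOneSpectrum (𝓞 K₀)) (v : HeightOneSpectrum (𝓞 K)),
      v.asIdeal.comap (algebraMap (𝓞 K₀) (𝓞 K)) = v₀.asIdeal → IsDeg1 S v →
      (F v₀).map (Int.castRingHom (AlgebraicClosure K)) = MotSystem.prodPoly A m v) :
    -- a set of places of `K` of density one
    Tendsto (ratio fun v : HeightOneSpectrum (𝓞 K) => IsDeg1 S v ∧
      ∀ i, HasVertex (A i) → ∀ k, 0 < k → k < (A i).n →
      (∀ M : ℕ, (Ideal.absNorm v.asIdeal : ℤ) ^ M ∣ Algebra.norm ℤ (((A i).P v).coeff ((A i).n - k)) →
        2 * M < (A i).w * k * Module.finrank ℚ (A i).E) ∧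
      (∀ (p : ℕ) [Fact p.Prime], Ideal.absNorm v.asIdeal = p →
        ∀ τ : AlgebraicClosure K →+* PadicAlgCl p,
        ∃ (T : ((A i).E →+* AlgebraicClosure K) → Multiset (PadicAlgCl p)) (M : ℕ),
        (∀ σ, T σ ≤ ((A i).poly v (τ.comp σ)).roots ∧ Multiset.card (T σ) = k) ∧
        2 * M < (A i).w * k * Module.finrank ℚ (A i).E ∧
        (1 / (p : ℝ)) ^ M ≤ ∏ σ, ((T σ).map fun y => ‖y‖).prod) ∧
      (∀ Q, IsOver Q v → ∀ γ : GK K,
        (∀ x : 𝓞 (AlgebraicClosure K), γ • x - x ^ Ideal.absNorm v.asIdeal ∈ Q) →
        Small (A i) γ k (excess (A i) v Q k))) atTop (𝓝 1) ∧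
    -- for every element of the Galois group a set of places of `K₀` of positive lower density
    ∀ γ : GK K, 0 < lowerDensity fun v₀ : HeightOneSpectrum (𝓞 K₀) => IsDeg1 S v₀ ∧
      CommonSlopes (Ideal.absNorm v₀.asIdeal) (F v₀) (MotSystem.slopes A m) (commonBound A m γ) := by
  refine ⟨?_, ?_⟩
  · apply ratio_to_one
    refine squeeze_zero (fun N => dens_nonneg _ _) (fun N => dens_mono ?_ N) (dens_goodPl A χ S hA)
    intro v hv hg
    apply hv
    refine ⟨hg.1, fun i hi k hk0 hkn => ⟨hg.2 i hi k hk0 hkn, ?_, ?_⟩⟩
    · intro p _ hpe τ
      exact slopes_lt (hA i) hg.1 hkn.le (hg.2 i hi k hk0 hkn) p hpe τ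
    · intro Q hQ γ hγ
      exact excess_small (hA i) hg.1 hQ hγ hkn.le (hg.2 i hi k hk0 hkn)
  · intro γ₀
    obtain ⟨δ, hδ, hev⟩ := lower_like A χ S hA γ₀
    have hd : (0 : ℝ) < (Module.finrank ℚ K : ℝ) := by exact_mod_cast Module.finrank_pos
    apply lowerDensity_pos _ (δ / (Module.finrank ℚ K : ℝ)) (by positivity)
    filter_upwards [hev] with N hN
    have h1 := dens_under (K₀ := K₀) (fun v : HeightOneSpectrum (𝓞 K) => GoodPl A S v ∧
        ∃ γ : GK K, IsFrob v γ ∧ ∀ i k, smallMax (A i) γ k ≤ smallMax (A i) γ₀ k)
        (fun v₀ : HeightOneSpectrum (𝓞 K₀) => IsDeg1 S v₀ ∧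
          CommonSlopes (Ideal.absNorm v₀.asIdeal) (F v₀) (MotSystem.slopes A m) (commonBound A m γ₀))
        (fun v hv => hv.1.1.1) (fun v v₀ hv h0 => by
          obtain ⟨hgood, γ, ⟨Q, hQ, hQv, hγ⟩, hle⟩ := hv
          have e := under_norm v hgood.1.1 v₀ h0
          refine ⟨?_, ?_⟩
          · unfold IsDeg1
            rw [e]
            exact hgood.1
          · rw [e]
            obtain ⟨hp, M, h1, h2, h3⟩ := common_of A m χ S hA hgood ⟨hQ, hQv⟩ hγ (F v₀)
              (hF v₀ v h0 hgood.1)
            refine ⟨hp, M, h1, le_trans ?_ h2, h3⟩
            unfold commonBound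
            apply Finset.sum_le_sum
            intro i _
            apply Nat.mul_le_mul_left
            apply Nat.mul_le_mul_left
            apply Nat.sub_le_sub_left
            unfold maxExcess
            apply Finset.sum_le_sum
            intro k _
            exact Nat.mul_le_mul_left _ (hle i k)) N
    rw [div_le_iff₀ hd, mul_comm]
    exact hN.trans h1

end Pool.Agent.Results.MP_db07cb_ag.NewtonPolygonsDensityOne
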