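import Pool.Agent.Q137.UO.WOrd
import Pool.Agent.Q137.UO.Inf

/-!
# Ordinary primes for intersection cohomology in one degree

Let `F` be a number field and `M` the category of motives over `F` (for motivated cycles), a semisimple
abelian category. Let `m = w + 2N` be an integer. For a scheme `X` of finite type over `ℚ` let `D.H N n X`
be the object `Gr^W_{w+2N} H^n_c(X_F)` of `M`; for smooth projective `X` it is `h^n(X_F)` if `n = m`, and
it is zero otherwise. For a projective scheme `X` over `F` let `IH X` be the motive with the realizations
`IH^m(X)`, a direct factor of `h^m` of a resolution of singularities by the decomposition theorem. Let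
`ord N` be the set of the maximal ideals `𝔭` of `𝓞_F` such that the `p`-adic realization of `N` (`𝔭 | p`)
is crystalline at `𝔭`, and the Newton polygon of its crystalline Frobenius is the Hodge(-Tate) polygon of
`N`. (For `h^m` of a smooth projective scheme it is also the Newton polygon of `Frob_𝔭` on the `ℓ`-adic
realizations, for almost all `𝔭`, by Katz and Messing.)

`GraphsAt D ord Set.Infinite N` is the statement that for finitely many finite sets `H_s` of triples
`(i, j, l)` with `1 ≤ i ≤ a_s`, and degrees `n_s`, there are infinitely many common ordinary `𝔭` for the
motives `Gr^W_{m + 2(a_s - 1)} H^{n_s}_c(X_s)`, where `X_s` is the cubic hypersurface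
`∑_{(i, j, l) ∈ H_s} x_i y_j z_l = 1`. `FormsAt` is the same statement for hypersurfaces
`T(x, y, z) = 1`, for trilinear forms `T` with rational coefficients in `a_s` variables `x`.

**Theorem.** For every `m` the following are equivalent: for all projective `X` over `F` there are
infinitely many ordinary `𝔭` for `IH^m(X)`; the same for smooth projective schemes; the statement
`FormsAt`; the statement `GraphsAt`.
-/

set_option autoImplicit false

open CategoryTheory CategoryTheory.Limits AlgebraicGeometry Pool.Agent.Y116.UV Pool.Agent.Z125.UN
  Pool.Agent.Q193.LT Pool.Agent.Q137.UO Pool.Agent.Q49.WU IsDedekindDomain NumberField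

universe v u

namespace Pool.Agent.Results.MP_db07cb_ag.OneDegree

/-- **Ordinary primes for intersection cohomology in one degree.** See the explanations above. -/
theorem result {F : Type} [Field F] [NumberField F] {M : Type u} [Category.{v} M] [Abelian M]
    {D : WeightData ℚ M} (h : IsWMotives D) {ord : M → Set (HeightOneSpectrum (𝓞 F))}
    (hO : IsWPlace D ord) {N : ℤ} {IH : Sch F → M} (hI : IsIHAt D ord IH N) :
    List.TFAE [
      ∀ X : Sch F, IsProj X → (ord (IH X)).Infinite,
      ProjAt D ord Set.Infinite N,
      FormsAt D ord Set.Infinite N,
      GraphsAt D ord Set.Infinite N] := by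
  tfae_have 1 ↔ 2 := ih_at_iff hO large_infinite hI
  tfae_have 2 ↔ 3 := forms_at_iff h hO large_infinite N
  tfae_have 2 ↔ 4 := graphs_at_iff h hO large_infinite frac_rat N
  tfae_finish

end Pool.Agent.Results.MP_db07cb_ag.OneDegree
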