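import Pool.Agent.Q148.UP.Var

/-!
# One infinite set of prime numbers for all projective varieties over all number fields

Let `V` be the commutative semiring of isomorphism classes of projective varieties over `ℚ` (sum =
disjoint union, product = product; varieties need not be connected), `W` the set of isomorphism classes of
pairs (number field `F`, projective variety over `F`). For `X` in `V` and a prime number `p` let
`newt p X` be the multiset of the pairs `(n, s)`, `s` the slopes of Frobenius at `p` on the intersection
cohomology `IH^n(X)` (for the finitely many bad primes the value does not matter), `hodge X` the
multiset of the pairs `(n, i)`, `i` the Hodge–Tate weights of `IH^n(X)`, and `newtW Y p P`, `hodgeW Y` the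
same for `Y` in `W` and a place `P` of its field of definition above `p`; `deg n` is the part of degree
`n`, so that `deg n (newtW Y p P) = deg n (hodgeW Y)` says that `P` is ordinary for `IH^n(Y)`.

The known properties used (`IsVar`) are the formulas for disjoint unions, products (Künneth), the
projective line, restriction of scalars (`down`), and `above`: the Newton polygon lies above the
Hodge–Tate polygon.

**Theorem.** The following are equivalent:

1. question Q1 has a positive answer: for all number fields `F`, all projective varieties `Y` over `F` and
   all `n` there are infinitely many maximal ideals of `O_F` that are ordinary for `IH^n(Y)`;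
2. for all projective varieties `X` over `ℚ` and all *even* `n` there are infinitely many prime numbers
   that are ordinary for `IH^n(X)`;
3. for all finite sets of projective varieties over `ℚ` there are infinitely many prime numbers that are
   ordinary for all members of the set in all degrees;
4. there is one infinite set `P₀` of prime numbers such that for every projective variety `Y` over any
   number field `F`, for all but finitely many `p` in `P₀`, all places of `F` above `p` are ordinary for
   `IH^n(Y)` for all `n`.
-/

set_option autoImplicit false

open Pool.Agent.Q148.UP

namespace Pool.Agent.Results.MP_db07cb_ag.UniversalPrimes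

/-- **A universal set of prime numbers.** See the explanations above. -/
theorem result (V W : Type) [CommSemiring V] [Countable V] (D : VarData V W) (h : IsVar D) :
    List.TFAE [
      ∀ (Y : W) (n : ℤ),
        {x : Σ p : Nat.Primes, D.place Y p |
          deg n (D.newtW Y x.1 x.2) = deg n (D.hodgeW Y)}.Infinite,
      ∀ (X : V) (n : ℤ), Even n → {p | deg n (D.newt p X) = deg n (D.hodge X)}.Infinite,
      ∀ s : Finset V, {p | ∀ X ∈ s, D.newt p X = D.hodge X}.Infinite,
      ∃ P₀ : Set Nat.Primes, P₀.Infinite ∧
        ∀ Y : W, (P₀ \ {p | ∀ P : D.place Y p, D.newtW Y p P = D.hodgeW Y}).Finite] :=
  vtfae h inferInstance

end Pool.Agent.Results.MP_db07cb_ag.UniversalPrimes
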